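import Mathlib
import Pool.Agent.Helper78.PP.Defs

/-!
A two-sided ping-pong criterion for the word condition.
-/

set_option autoImplicit false

namespace Pool.Agent.Helper77.PP

open Pool.Agent.Helper78.PP

universe u v

variable {G : Type u} [Group G] {X : Type v} [MulAction G X]

/-- Ping-pong: attracting sets `U s` and repelling sets `R s` of `g` (`s = true`) and `g⁻¹`
(`s = false`). -/
theorem freeFor_of_pingpong (D : Finset G) (g : G) (U R : Bool → Set X)
    (h1 : ∀ s : Bool, ∀ x ∉ R s, (if s then g else g⁻¹) • x ∈ U s)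
    (h2 : ∀ d ∈ D, ∀ s s' : Bool, (d = 1 → s' = s) → ∀ x ∈ U s, d • x ∉ R s')
    (h3 : ∀ d ∈ D, ∀ s s' : Bool, ∃ x, x ∉ R s ∧ ∀ y ∈ U s', d • y ≠ x) :
    FreeFor D g := by
  have key : ∀ (l : List (Bool × G)) (p : Bool × G), (∀ q ∈ p :: l, q.2 ∈ D) →
      (p :: l).IsChain (fun p q => q.2 = 1 → p.1 = q.1) →
      ∀ x, x ∉ R ((p :: l).getLast (List.cons_ne_nil p l)).1 →
        ∃ y ∈ U p.1, ((p :: l).map fun p => p.2 * (if p.1 then g else g⁻¹)).prod • x =
          p.2 • y := by
    intro l
    induction l with
    | nil =>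
      intro p hD _ x hx
      refine ⟨(if p.1 then g else g⁻¹) • x, h1 p.1 x hx, ?_⟩
      simp [mul_smul]
    | cons q l ih =>
      intro p hD hch x hx
      rw [List.isChain_cons_cons] at hch
      rw [List.getLast_cons (List.cons_ne_nil q l)] at hx
      obtain ⟨y, hy, hy'⟩ := ih q (fun r hr => hD r (List.mem_cons_of_mem _ hr)) hch.2 x hx
      refine ⟨(if p.1 then g else g⁻¹) • (q.2 • y), ?_, ?_⟩
      · refine h1 p.1 _ ?_
        exact h2 q.2 (hD q (by simp)) q.1 p.1 hch.1 y hy
      · rw [List.map_cons, List.prod_cons, mul_smul, hy', mul_smul]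
  intro l hl hD hch hprod
  obtain ⟨p, l, rfl⟩ := List.exists_cons_of_ne_nil hl
  obtain ⟨x, hx1, hx2⟩ := h3 p.2 (hD p (by simp))
    ((p :: l).getLast (List.cons_ne_nil p l)).1 p.1
  obtain ⟨y, hy, hy'⟩ := key l p hD hch x hx1
  rw [hprod, one_smul] at hy'
  exact hx2 y hy hy'.symm

/-- One-sided ping-pong: `g` maps the complement of `V` into `U` and every non-trivial element of
`D` moves `U ∪ V` off itself. -/
theorem freeFor_of_pingpong' (D : Finset G) (g : G) (U V : Set X) (hUV : Disjoint U V)
    (hg : ∀ x ∉ V, g • x ∈ U) (hD : ∀ d ∈ D, d ≠ 1 → ∀ x ∈ U ∪ V, d • x ∉ U ∪ V)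
    (hU : U.Nonempty) (hV : V.Nonempty) (hne : ∃ x, x ∉ U ∪ V) : FreeFor D g := by
  have hg' : ∀ x ∉ U, g⁻¹ • x ∈ V := by
    intro x hx
    by_contra h
    have := hg _ h
    rw [smul_inv_smul] at this
    exact hx this
  refine freeFor_of_pingpong D g (fun s => if s then U else V) (fun s => if s then V else U)
    ?_ ?_ ?_
  · intro s x hx
    cases s
    · simpa using hg' x (by simpa using hx)
    · simpa using hg x (by simpa using hx)
  · intro d hd s s' hs x hx hx'
    by_cases h1 : d = 1
    · have := hs h1
      subst this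
      subst h1
      rw [one_smul] at hx'
      cases s'
      · exact Set.disjoint_left.1 hUV (by simpa using hx') (by simpa using hx)
      · exact Set.disjoint_left.1 hUV (by simpa using hx) (by simpa using hx')
    · refine hD d hd h1 x ?_ ?_
      · cases s
        · exact Or.inr (by simpa using hx)
        · exact Or.inl (by simpa using hx)
      · cases s'
        · exact Or.inl (by simpa using hx')
        · exact Or.inr (by simpa using hx')
  · intro d hd s s'
    by_cases h1 : d = 1
    · obtain ⟨x, hx⟩ := hne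
      subst h1
      refine ⟨x, ?_, ?_⟩
      · intro h
        cases s
        · exact hx (Or.inl (by simpa using h))
        · exact hx (Or.inr (by simpa using h))
      · intro y hy hyx
        rw [one_smul] at hyx
        subst hyx
        cases s'
        · exact hx (Or.inr (by simpa using hy))
        · exact hx (Or.inl (by simpa using hy))
    · -- a point of the other set
      obtain ⟨x, hx, hx'⟩ : ∃ x ∈ U ∪ V, x ∉ (if s then V else U : Set X) := by
        cases s
        · obtain ⟨x, hx⟩ := hV
          exact ⟨x, Or.inr hx, by simpa using fun h => Set.disjoint_left.1 hUV h hx⟩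
        · obtain ⟨x, hx⟩ := hU
          exact ⟨x, Or.inl hx, by simpa using fun h => Set.disjoint_left.1 hUV hx h⟩
      refine ⟨x, hx', ?_⟩
      intro y hy hyx
      refine hD d hd h1 y ?_ ?_
      · cases s'
        · exact Or.inr (by simpa using hy)
        · exact Or.inl (by simpa using hy)
      · rw [hyx]
        exact hx

end Pool.Agent.Helper77.PP
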