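import Mathlib
import Pool.Agent.Helper77.PP.Criterion

/-!
Free groups of rank at least two satisfy the word condition.
-/

set_option autoImplicit false

namespace Pool.Agent.Helper77.PP

open Pool.Agent.Helper78.PP FreeGroup

universe u

variable {α : Type u}

/-- Cancellation in a product of two reduced words. -/
theorem cancel_lists (n : ℕ) : ∀ L₁ L₂ : List (α × Bool), L₁.length ≤ n → IsReduced L₁ →
    IsReduced L₂ → ∃ r c t, L₁ = r ++ invRev c ∧ L₂ = c ++ t ∧ IsReduced (r ++ t) := by
  induction n with
  | zero =>
    intro L₁ L₂ hn h1 h2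
    have : L₁ = [] := List.length_eq_zero_iff.1 (Nat.le_zero.1 hn)
    subst this
    exact ⟨[], [], L₂, by simp, by simp, by simpa using h2⟩
  | succ n ih =>
    intro L₁ L₂ hn h1 h2
    rcases List.eq_nil_or_concat L₁ with rfl | ⟨L₁', x, rfl⟩
    · exact ⟨[], [], L₂, by simp, by simp, by simpa using h2⟩
    rcases L₂ with _ | ⟨y, L₂'⟩
    · exact ⟨L₁' ++ [x], [], [], by simp, by simp, by simpa using h1⟩
    by_cases hxy : x.1 = y.1 → x.2 = y.2
    · refine ⟨L₁' ++ [x], [], y :: L₂', by simp, by simp, ?_⟩
      unfold FreeGroup.IsReduced at *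
      rw [List.concat_eq_append] at h1
      rw [List.isChain_append]
      refine ⟨h1, h2, ?_⟩
      intro u hu v hv
      rw [List.getLast?_concat, Option.mem_some_iff] at hu
      rw [List.head?_cons, Option.mem_some_iff] at hv
      subst hu
      subst hv
      exact hxy
    · push Not at hxy
      obtain ⟨e1, e2⟩ := hxy
      have hx : x = (y.1, !y.2) := by
        refine Prod.ext e1 ?_
        show x.2 = !y.2
        cases hx2 : x.2 <;> cases hy2 : y.2 <;> simp_all
      have h1' : IsReduced L₁' := by
        unfold FreeGroup.IsReduced at *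
        rw [List.concat_eq_append] at h1
        exact (List.isChain_append.1 h1).1
      have h2' : IsReduced L₂' := by
        unfold FreeGroup.IsReduced at *
        exact h2.tail
      obtain ⟨r, c, t, i1, i2, i3⟩ := ih L₁' L₂' (by simpa using hn) h1' h2'
      refine ⟨r, y :: c, t, ?_, ?_, i3⟩
      · rw [i1, hx]
        simp [invRev]
      · rw [i2, List.cons_append]

variable [DecidableEq α]

theorem mul_word (x y : FreeGroup α) : ∃ r c t, x.toWord = r ++ invRev c ∧ y.toWord = c ++ t ∧
    (x * y).toWord = r ++ t := by
  obtain ⟨r, c, t, h1, h2, h3⟩ := cancel_lists x.toWord.length x.toWord y.toWord le_rfl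
    isReduced_toWord isReduced_toWord
  refine ⟨r, c, t, h1, h2, ?_⟩
  have h4 : x * y = mk (r ++ t) := by
    rw [← mk_toWord (x := x), ← mk_toWord (x := y), h1, h2]
    rw [← mul_mk, ← mul_mk, ← mul_mk, ← inv_mk]
    group
  rw [h4, toWord_mk, h3.reduce_eq]

/-- The word `C^N C'^N`. -/
def ww (N : ℕ) (C C' : α × Bool) : List (α × Bool) := List.replicate N C ++ List.replicate N C'

omit [DecidableEq α] in
theorem ww_length (N : ℕ) (C C' : α × Bool) : (ww N C C').length = 2 * N := by
  simp [ww]; omega

omit [DecidableEq α] in
theorem ww_get_lt {N : ℕ} {C C' : α × Bool} {L : List (α × Bool)} (h : ww N C C' <+: L) {j : ℕ}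
    (hj : j < N) : L[j]? = some C := by
  obtain ⟨s, rfl⟩ := h
  rw [List.getElem?_append_left (by rw [ww_length]; omega)]
  unfold ww
  rw [List.getElem?_append_left (by simpa using hj)]
  simp [hj]

omit [DecidableEq α] in
theorem ww_get_ge {N : ℕ} {C C' : α × Bool} {L : List (α × Bool)} (h : ww N C C' <+: L) {j : ℕ}
    (hj : N ≤ j) (hj' : j < 2 * N) : L[j]? = some C' := by
  obtain ⟨s, rfl⟩ := h
  rw [List.getElem?_append_left (by rw [ww_length]; omega)]
  unfold ww
  rw [List.getElem?_append_right (by simpa using hj)]
  simp only [List.length_replicate, List.getElem?_replicate]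
  rw [if_pos (by omega)]

omit [DecidableEq α] in
/-- The main combinatorial point: short left multipliers move the cylinders apart. -/
theorem short_move {N : ℕ} {C₁ C₂ C₁' C₂' : α × Bool} {r c t : List (α × Bool)}
    (hC : C₁ ≠ C₂) (hC' : C₁' ≠ C₂')
    (hr : r.length < N) (hc : c.length < N)
    (h1 : ww N C₁ C₂ <+: c ++ t) (h2 : ww N C₁' C₂' <+: r ++ t) : r = c := by
  have e : ∀ j, (c ++ t)[c.length + j]? = t[j]? := by
    intro j
    rw [List.getElem?_append_right (by omega)]
    congr 1
    omega
  have e' : ∀ j, (r ++ t)[r.length + j]? = t[j]? := by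
    intro j
    rw [List.getElem?_append_right (by omega)]
    congr 1
    omega
  have hCC : C₁ = C₁' := by
    have a1 := e 0
    have a2 := e' 0
    rw [ww_get_lt h1 (by omega)] at a1
    rw [ww_get_lt h2 (by omega)] at a2
    rw [← a1] at a2
    exact (Option.some.inj a2).symm
  have hlen : r.length = c.length := by
    rcases lt_trichotomy r.length c.length with hlt | heq | hgt
    · exfalso
      -- index N in c ++ t is `C₂`, in r ++ t it is an earlier place
      have a1 := e (N - c.length)
      have a2 := e' (N - c.length)
      rw [show c.length + (N - c.length) = N by omega, ww_get_ge h1 (by omega) (by omega)] at a1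
      rw [ww_get_lt h2 (by omega)] at a2
      rw [← a1] at a2
      exact hC (hCC.trans (Option.some.inj a2))
    · exact heq
    · exfalso
      have a1 := e (N - r.length)
      have a2 := e' (N - r.length)
      rw [show r.length + (N - r.length) = N by omega, ww_get_ge h2 (by omega) (by omega)] at a2
      rw [ww_get_lt h1 (by omega)] at a1
      rw [← a1] at a2
      exact hC' (hCC.symm.trans (Option.some.inj a2).symm)
  refine List.ext_getElem? fun j => ?_
  rcases Nat.lt_or_ge j c.length with hj | hj
  · have a1 : (c ++ t)[j]? = some C₁ := ww_get_lt h1 (by omega)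
    have a2 : (r ++ t)[j]? = some C₁' := ww_get_lt h2 (by omega)
    rw [List.getElem?_append_left hj] at a1
    rw [List.getElem?_append_left (by omega)] at a2
    rw [a1, a2, hCC]
  · rw [List.getElem?_eq_none hj, List.getElem?_eq_none (by omega)]

/-- Words that start with `a^N b^N` or `b^N a^N`. -/
def cyl (N : ℕ) (C C' : α × Bool) : Set (FreeGroup α) := {x | ww N C C' <+: x.toWord}

theorem hasFree_freeGroup (a b : α) (hab : a ≠ b) : HasFree (FreeGroup α) := by
  intro D
  obtain ⟨N, hN⟩ : ∃ N : ℕ, ∀ d ∈ D, d.toWord.length < N := by
    refine ⟨D.sup (fun d => d.toWord.length) + 1, fun d hd => ?_⟩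
    exact Nat.lt_succ_of_le (Finset.le_sup (f := fun d : FreeGroup α => d.toWord.length) hd)
  -- make sure that `N ≥ 1`
  obtain ⟨N, hN1, hN⟩ : ∃ N : ℕ, 1 ≤ N ∧ ∀ d ∈ D, d.toWord.length < N :=
    ⟨N + 1, by omega, fun d hd => (hN d hd).trans (Nat.lt_succ_self N)⟩
  set A : α × Bool := (a, true) with hA
  set B : α × Bool := (b, true) with hB
  have hAB : A ≠ B := fun h => hab (congrArg Prod.fst h)
  have redw : ∀ C C' : α × Bool, C.1 ≠ C'.1 → IsReduced (ww N C C') := by
    intro C C' h
    unfold FreeGroup.IsReduced ww
    rw [List.isChain_append]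
    refine ⟨?_, ?_, ?_⟩
    · exact List.isChain_replicate_of_rel _ (fun _ => rfl)
    · exact List.isChain_replicate_of_rel _ (fun _ => rfl)
    · intro u hu v hv huv
      exfalso
      have hu' : u = C := List.eq_of_mem_replicate (List.mem_of_mem_getLast? hu)
      have hv' : v = C' := List.eq_of_mem_replicate (List.mem_of_mem_head? hv)
      rw [hu', hv'] at huv
      exact h huv
  have wp : (mk (ww N A B)).toWord = ww N A B := by
    rw [toWord_mk, (redw A B hab).reduce_eq]
  have wq : (mk (ww N B A)).toWord = ww N B A := by
    rw [toWord_mk, (redw B A hab.symm).reduce_eq]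
  set g : FreeGroup α := mk (ww N A B) * (mk (ww N B A))⁻¹ with hg
  have hgw : g.toWord = ww N A B ++ invRev (ww N B A) := by
    rw [hg, inv_mk, mul_mk, toWord_mk]
    refine IsReduced.reduce_eq ?_
    have h1 : IsReduced (invRev (ww N B A)) := by
      have := isReduced_toWord (x := (mk (ww N B A))⁻¹)
      rwa [toWord_inv, wq] at this
    unfold FreeGroup.IsReduced at *
    rw [List.isChain_append]
    refine ⟨redw A B hab, h1, ?_⟩
    intro u hu v hv huv
    exfalso
    have hu' : u = B := by
      unfold ww at hu
      rw [List.getLast?_append_of_ne_nil _ (by simp; omega)] at hu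
      exact List.eq_of_mem_replicate (List.mem_of_mem_getLast? hu)
    have hv' : v = (a, false) := by
      have : invRev (ww N B A) = List.replicate N (a, false) ++ List.replicate N (b, false) := by
        simp [ww, invRev, hA, hB]
      rw [this, List.head?_append_of_ne_nil _ (by simp; omega)] at hv
      exact List.eq_of_mem_replicate (List.mem_of_mem_head? hv)
    rw [hu', hv'] at huv
    exact hab huv.symm
  refine ⟨g, freeFor_of_pingpong' (X := FreeGroup α) D g (cyl N A B) (cyl N B A) ?_ ?_ ?_ ?_ ?_ ?_⟩
  · rw [Set.disjoint_left]
    intro x hx hx'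
    have e1 := ww_get_lt hx (j := 0) (by omega)
    have e2 := ww_get_lt hx' (j := 0) (by omega)
    rw [e1] at e2
    exact hAB (Option.some.inj e2)
  · intro x hx
    obtain ⟨r, c, t, h1, h2, h3⟩ := mul_word g x
    show ww N A B <+: (g • x).toWord
    rw [smul_eq_mul, h3]
    rw [hgw] at h1
    have hlen : c.length < 2 * N := by
      by_contra hcon
      push Not at hcon
      apply hx
      show ww N B A <+: x.toWord
      rw [h2]
      refine List.IsPrefix.trans ?_ (List.prefix_append c t)
      -- compare the ends
      have hs : invRev (ww N B A) <:+ invRev c := by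
        have hs1 : invRev (ww N B A) <:+ r ++ invRev c := by
          rw [← h1]; exact List.suffix_append _ _
        exact List.suffix_of_suffix_length_le hs1 (List.suffix_append _ _)
          (by simp only [invRev_length, ww_length]; exact hcon)
      obtain ⟨s, hs⟩ := hs
      refine ⟨invRev s, ?_⟩
      have := congrArg invRev hs
      rw [invRev_invRev] at this
      rw [← this]
      simp [invRev, Function.comp_def]
    have hpr : ww N A B <+: r := by
      have hp1 : ww N A B <+: r ++ invRev c := by
        rw [← h1]; exact List.prefix_append _ _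
      refine List.prefix_of_prefix_length_le hp1 (List.prefix_append _ _) ?_
      have := congrArg List.length h1
      simp only [List.length_append, ww_length, invRev_length] at this ⊢
      omega
    exact hpr.trans (List.prefix_append r t)
  · intro d hd hd1 x hx hx'
    obtain ⟨r, c, t, h1, h2, h3⟩ := mul_word d x
    have hl := hN d hd
    rw [h1] at hl
    simp only [List.length_append, invRev_length] at hl
    have hrc : r = c := by
      rw [smul_eq_mul] at hx'
      rcases hx with hx | hx <;> rcases hx' with hx' | hx'
      · have hx : ww N A B <+: x.toWord := hx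
        have hx' : ww N A B <+: (d * x).toWord := hx'
        rw [h2] at hx; rw [h3] at hx'
        exact short_move hAB hAB (by omega) (by omega) hx hx'
      · have hx : ww N A B <+: x.toWord := hx
        have hx' : ww N B A <+: (d * x).toWord := hx'
        rw [h2] at hx; rw [h3] at hx'
        exact short_move hAB hAB.symm (by omega) (by omega) hx hx'
      · have hx : ww N B A <+: x.toWord := hx
        have hx' : ww N A B <+: (d * x).toWord := hx'
        rw [h2] at hx; rw [h3] at hx'
        exact short_move hAB.symm hAB (by omega) (by omega) hx hx'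
      · have hx : ww N B A <+: x.toWord := hx
        have hx' : ww N B A <+: (d * x).toWord := hx'
        rw [h2] at hx; rw [h3] at hx'
        exact short_move hAB.symm hAB.symm (by omega) (by omega) hx hx'
    apply hd1
    rw [← mk_toWord (x := d), h1, hrc, ← mul_mk, ← inv_mk]
    group
  · exact ⟨mk (ww N A B), by show ww N A B <+: (mk (ww N A B)).toWord; rw [wp]⟩
  · exact ⟨mk (ww N B A), by show ww N B A <+: (mk (ww N B A)).toWord; rw [wq]⟩
  · refine ⟨1, ?_⟩
    rintro (h | h)
    · have h' : ww N A B <+: (1 : FreeGroup α).toWord := h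
      rw [toWord_one, List.prefix_nil] at h'
      have := congrArg List.length h'
      rw [ww_length] at this
      simp at this
      omega
    · have h' : ww N B A <+: (1 : FreeGroup α).toWord := h
      rw [toWord_one, List.prefix_nil] at h'
      have := congrArg List.length h'
      rw [ww_length] at this
      simp at this
      omega

end Pool.Agent.Helper77.PP
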