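import Mathlib
import Pool.Agent.Helper77.Dens.Defs

/-!
Lifting a colouring from a quotient of a subgroup of finite index.
-/

set_option autoImplicit false

namespace Pool.Agent.Helper77.PP

open Pool.Agent.Helper77.Dens

universe u v

theorem lift_colouring {G : Type u} [Group G] (H : Subgroup G) [H.FiniteIndex] {Q : Type v}
    [Group Q] (π : H →* Q) (hπ : Function.Surjective π) (c : Q → Fin 4)
    (hc : ∀ (i : Fin 4) (S : Finset Q), S.card ≤ 4 →
      ∃ x : Q, ∀ p, c p = i → ∀ s ∈ S, c (s * (x * p)) ≠ i) :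
    ∃ A : Fin (4 * H.index) → Set G, IsPartition A ∧
      ∀ i, ((5 * H.index : ℕ) : ℕ∞) ≤ cov (diffSet (A i)) := by
  classical
  have hcard : Nat.card (Fin 4 × (G ⧸ H)) = 4 * H.index := by
    rw [Nat.card_prod, Nat.card_fin]; rfl
  let e : Fin 4 × (G ⧸ H) ≃ Fin (4 * H.index) := Finite.equivFinOfCardEq hcard
  have : Fintype (G ⧸ H) := Fintype.ofFinite _
  have hmem : ∀ g : G, ((g : G ⧸ H).out)⁻¹ * g ∈ H := by
    intro g
    rw [← QuotientGroup.eq]
    exact Quotient.out_eq _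
  let col : G → Fin 4 × (G ⧸ H) := fun g => (c (π ⟨_, hmem g⟩), (g : G ⧸ H))
  refine ⟨fun k => {g | e (col g) = k}, ⟨fun i j hij => ?_, fun g => ⟨e (col g), rfl⟩⟩,
    fun k => ?_⟩
  · rw [Set.disjoint_left]
    intro g hg hg'
    exact hij (hg.symm.trans hg')
  · unfold cov
    refine le_iInf ?_
    rintro ⟨E, hE⟩
    by_contra hlt
    push Not at hlt
    have hfin : E.Finite := Set.finite_of_encard_le_coe hlt.le
    have hcardE : hfin.toFinset.card < 5 * H.index := by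
      change E.encard < _ at hlt
      rw [hfin.encard_eq_coe_toFinset_card] at hlt
      exact_mod_cast hlt
    obtain ⟨⟨i, q0⟩, rfl⟩ := e.surjective k
    let t0 : G := q0.out
    obtain ⟨q, -, hq⟩ := Finset.exists_card_fiber_lt_of_card_lt_mul (s := hfin.toFinset)
      (t := (Finset.univ : Finset (G ⧸ H))) (f := fun f => ((f * t0 : G) : G ⧸ H)) (n := 5) (by
        rw [Finset.card_univ, ← Nat.card_eq_fintype_card, mul_comm]
        exact hcardE)
    let tq : G := q.out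
    let k : G → Q := fun f => if h : tq⁻¹ * (f * t0) ∈ H then (π ⟨_, h⟩)⁻¹ else 1
    obtain ⟨x, hx⟩ := hc i ((hfin.toFinset.filter fun f => ((f * t0 : G) : G ⧸ H) = q).image k)
      (Finset.card_image_le.trans (by omega))
    obtain ⟨h, rfl⟩ := hπ x
    obtain ⟨f, hf, b, ⟨a, ha, a', ha', rfl⟩, hy⟩ := hE (tq * h * t0⁻¹)
    have ha1 : col a = (i, q0) := e.injective ha
    have ha1' : col a' = (i, q0) := e.injective ha'
    have hqa : (a : G ⧸ H) = q0 := congrArg Prod.snd ha1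
    have hqa' : (a' : G ⧸ H) = q0 := congrArg Prod.snd ha1'
    have hia : c (π ⟨_, hmem a⟩) = i := congrArg Prod.fst ha1
    have hia' : c (π ⟨_, hmem a'⟩) = i := congrArg Prod.fst ha1'
    have ma : t0⁻¹ * a ∈ H := by
      have := hmem a; rwa [hqa] at this
    have ma' : t0⁻¹ * a' ∈ H := by
      have := hmem a'; rwa [hqa'] at this
    have hia2 : c (π ⟨t0⁻¹ * a, ma⟩) = i := by
      rw [← hia]
      congr 3
      show t0⁻¹ * a = ((a : G ⧸ H).out)⁻¹ * a
      rw [hqa]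
    have hia2' : c (π ⟨t0⁻¹ * a', ma'⟩) = i := by
      rw [← hia']
      congr 3
      show t0⁻¹ * a' = ((a' : G ⧸ H).out)⁻¹ * a'
      rw [hqa']
    -- the key identity in `G`
    have hkey : tq⁻¹ * (f * t0) = h * (t0⁻¹ * a') * (t0⁻¹ * a)⁻¹ := by
      have : f = tq * h * t0⁻¹ * a' * a⁻¹ := by
        rw [hy]; group
      rw [this]; group
    have hmemf : tq⁻¹ * (f * t0) ∈ H := by
      rw [hkey]
      exact H.mul_mem (H.mul_mem h.2 ma') (H.inv_mem ma)
    have hfq : ((f * t0 : G) : G ⧸ H) = q := by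
      have h1 : (tq : G ⧸ H) = ((f * t0 : G) : G ⧸ H) := QuotientGroup.eq.2 hmemf
      rw [← h1]
      exact Quotient.out_eq q
    have hkf : k f = (π ⟨_, hmemf⟩)⁻¹ := dif_pos hmemf
    refine hx (π ⟨t0⁻¹ * a', ma'⟩) hia2' (k f)
      (Finset.mem_image.2 ⟨f, Finset.mem_filter.2 ⟨hfin.mem_toFinset.2 hf, hfq⟩, rfl⟩) ?_
    have h5 : (⟨tq⁻¹ * (f * t0), hmemf⟩ : H) = h * ⟨t0⁻¹ * a', ma'⟩ * (⟨t0⁻¹ * a, ma⟩)⁻¹ :=
      Subtype.ext hkey
    rw [hkf, h5, ← hia2]
    congr 1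
    simp only [map_mul, map_inv]
    group

theorem not_propC_of_partition {G : Type u} [Group G] {m : ℕ} (hm : m ≠ 0)
    (h : ∃ A : Fin (4 * m) → Set G, IsPartition A ∧
      ∀ i, ((5 * m : ℕ) : ℕ∞) ≤ cov (diffSet (A i))) : ¬ PropC G := by
  intro hC
  obtain ⟨A, hA, h5⟩ := h
  obtain ⟨i, hi⟩ := hC (4 * m) (by omega) A hA
  have h45 : ((5 * m : ℕ) : ℕ∞) ≤ ((4 * m : ℕ) : ℕ∞) := (h5 i).trans hi
  have h46 : 5 * m ≤ 4 * m := by exact_mod_cast h45
  omega

end Pool.Agent.Helper77.PP
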