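import Mathlib
import Pool.Agent.Helper78.PP.Defs

/-!
Powers groups (de la Harpe) satisfy the word condition.
-/

set_option autoImplicit false

namespace Pool.Agent.Helper77.PP

open Pool.Agent.Helper78.PP

universe u

/-- A group `Q` is a Powers group (de la Harpe): it is nontrivial, and for every finite set `F` of
nontrivial elements and every `N` there are a partition `Q = C ⊔ D` and `y_1, …, y_N` in `Q` such
that `fC` and `C` are disjoint for `f ∈ F`, and the translates `y_j D` are pairwise disjoint. -/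
def IsPowers (Q : Type u) [Group Q] : Prop :=
  Nontrivial Q ∧ ∀ F : Finset Q, 1 ∉ F → ∀ N : ℕ, ∃ (C D : Set Q) (y : Fin N → Q),
    Disjoint C D ∧ C ∪ D = Set.univ ∧
    (∀ f ∈ F, Disjoint ((fun x => f * x) '' C) C) ∧
    ∀ j k, j ≠ k → Disjoint ((fun x => y j * x) '' D) ((fun x => y k * x) '' D)

variable {Q : Type u} [Group Q]

theorem powers_aux (D A B : Set Q) (y : Bool → Q) (y₁ δ : Q)
    (hD : ∀ d ∈ D, d ≠ 1 → ∀ a ∈ A, d * a ∈ B)
    (hδ : ∀ a ∈ A, δ * a ∈ B) (hδ' : ∀ a ∈ A, δ⁻¹ * a ∈ B)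
    (hy : ∀ e, ∀ b ∈ B, (y e)⁻¹ * (y (!e) * b) ∈ A)
    (hy1 : ∀ e, ∀ b ∈ B, (y e)⁻¹ * (y₁ * b) ∈ A)
    (hy2 : ∀ e, ∀ b ∈ B, y₁⁻¹ * (y e * b) ∈ A)
    (g : Q) (hg : g = y₁⁻¹ * (y true * (δ * ((y false)⁻¹ * y₁)))) :
    ∀ (l : List (Bool × Q)) (p : Bool × Q), (∀ q ∈ p :: l, q.2 ∈ D) →
      (p :: l).IsChain (fun p q => q.2 = 1 → p.1 = q.1) →
      ∀ b ∈ B, ∃ b' ∈ B, (((p :: l).map fun p => p.2 * (if p.1 then g else g⁻¹)).prod) * b =
        p.2 * (y₁⁻¹ * (y p.1 * b')) := by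
  -- one step
  have step : ∀ (e : Bool) (b : Q), (y (!e))⁻¹ * (y₁ * b) ∈ A →
      ∃ b' ∈ B, (if e then g else g⁻¹) * b = y₁⁻¹ * (y e * b') := by
    intro e b hb
    cases e with
    | true =>
      refine ⟨δ * ((y false)⁻¹ * (y₁ * b)), hδ _ (by simpa using hb), ?_⟩
      simp only [if_true]
      rw [hg]
      group
    | false =>
      refine ⟨δ⁻¹ * ((y true)⁻¹ * (y₁ * b)), hδ' _ (by simpa using hb), ?_⟩
      simp only [Bool.false_eq_true, if_false]
      rw [hg]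
      group
  intro l
  induction l with
  | nil =>
    intro p _ _ b hb
    obtain ⟨b', hb', h⟩ := step p.1 b (hy1 _ b hb)
    refine ⟨b', hb', ?_⟩
    rw [List.map_cons, List.map_nil, List.prod_cons, List.prod_nil, mul_one, mul_assoc, h]
  | cons q l ih =>
    intro p hmem hch b hb
    rw [List.isChain_cons_cons] at hch
    obtain ⟨b₁, hb₁, h₁⟩ := ih q (fun r hr => hmem r (List.mem_cons_of_mem _ hr)) hch.2 b hb
    have key : (y (!p.1))⁻¹ * (y₁ * (q.2 * (y₁⁻¹ * (y q.1 * b₁)))) ∈ A := by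
      by_cases hq : q.2 = 1
      · have hpq := hch.1 hq
        rw [hq, one_mul, mul_inv_cancel_left, ← hpq]
        have := hy (!p.1) b₁ hb₁
        simpa using this
      · exact hy1 _ _ (hD q.2 (hmem q (by simp)) hq _ (hy2 _ _ hb₁))
    obtain ⟨b', hb', h⟩ := step p.1 _ key
    refine ⟨b', hb', ?_⟩
    rw [List.map_cons, List.prod_cons, mul_assoc, mul_assoc, h₁, h]

theorem IsPowers.hasFree (hQ : IsPowers Q) : HasFree Q := by
  classical
  obtain ⟨hnt, hP⟩ := hQ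
  obtain ⟨δ, hδ⟩ := exists_ne (1 : Q)
  intro D
  obtain ⟨A, B, y, hAB, hU, hF, hy⟩ := hP ((insert δ (insert δ⁻¹ D)).erase 1)
    (Finset.notMem_erase _ _) 3
  have hnA : ∀ x, x ∉ A → x ∈ B := fun x hx => by
    have : x ∈ A ∪ B := by rw [hU]; trivial
    exact this.resolve_left hx
  have hnB : ∀ x, x ∉ B → x ∈ A := fun x hx => by
    have : x ∈ A ∪ B := by rw [hU]; trivial
    exact this.resolve_right hx
  have hd : ∀ d, d ∈ insert δ (insert δ⁻¹ D) → d ≠ 1 → ∀ a ∈ A, d * a ∈ B := by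
    intro d hd hd1 a ha
    refine hnA _ fun h => ?_
    exact (Set.disjoint_left.1 (hF d (Finset.mem_erase.2 ⟨hd1, hd⟩))) ⟨a, ha, rfl⟩ h
  have hyy : ∀ j k, j ≠ k → ∀ b ∈ B, (y k)⁻¹ * (y j * b) ∈ A := by
    intro j k hjk b hb
    refine hnB _ fun h => ?_
    refine (Set.disjoint_left.1 (hy j k hjk)) ⟨b, hb, rfl⟩ ⟨_, h, ?_⟩
    simp
  have hδB := hd δ (by simp) hδ
  have hδB' := hd δ⁻¹ (by simp) (by simpa using hδ)
  obtain ⟨b₀, hb₀⟩ : ∃ b, b ∈ B := by
    by_contra hcon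
    push Not at hcon
    exact hcon _ (hδB 1 (hnB 1 (hcon 1)))
  let z : Bool → Q := fun e => if e then y 0 else y 2
  let g : Q := (y 1)⁻¹ * (z true * (δ * ((z false)⁻¹ * y 1)))
  have hz : ∀ e, ∀ b ∈ B, (z e)⁻¹ * (z (!e) * b) ∈ A := by
    intro e b hb
    cases e with
    | true => exact hyy 2 0 (by decide) b hb
    | false => exact hyy 0 2 (by decide) b hb
  have hz1 : ∀ e, ∀ b ∈ B, (z e)⁻¹ * (y 1 * b) ∈ A := by
    intro e b hb
    cases e with
    | true => exact hyy 1 0 (by decide) b hb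
    | false => exact hyy 1 2 (by decide) b hb
  have hz2 : ∀ e, ∀ b ∈ B, (y 1)⁻¹ * (z e * b) ∈ A := by
    intro e b hb
    cases e with
    | true => exact hyy 0 1 (by decide) b hb
    | false => exact hyy 2 1 (by decide) b hb
  refine ⟨g, ?_⟩
  intro l hl hmem hch h1
  obtain ⟨p, l, rfl⟩ := List.exists_cons_of_ne_nil hl
  have main := powers_aux (D : Set Q) A B z (y 1) δ
    (fun d hdD hd1 => hd d (by simp [Finset.mem_coe.1 hdD]) hd1) hδB hδB' hz hz1 hz2 g rfl l p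
    (fun q hq => Finset.mem_coe.2 (hmem q hq)) hch
  have main' : ∀ b ∈ B, ∃ b' ∈ B, b = p.2 * ((y 1)⁻¹ * (z p.1 * b')) := by
    intro b hb
    obtain ⟨b', hb', h⟩ := main b hb
    rw [h1, one_mul] at h
    exact ⟨b', hb', h⟩
  by_cases hp : p.2 = 1
  · obtain ⟨b', hb', h⟩ := main' b₀ hb₀
    rw [hp, one_mul] at h
    have := hz2 p.1 b' hb'
    rw [← h] at this
    exact (Set.disjoint_left.1 hAB) this hb₀
  · -- the other translate
    have hA := hz2 (!p.1) b₀ hb₀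
    have hB := hd p.2 (by simp [hmem p (by simp)]) hp _ hA
    obtain ⟨b', hb', h⟩ := main' _ hB
    have h2 : z (!p.1) * b₀ = z p.1 * b' := mul_left_cancel (mul_left_cancel h)
    have h3 := hz p.1 b₀ hb₀
    rw [h2, inv_mul_cancel_left] at h3
    exact (Set.disjoint_left.1 hAB) h3 hb'

end Pool.Agent.Helper77.PP
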