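import Mathlib
import Pool.Agent.Helper77.PP.Criterion

/-!
A topological criterion for the word condition: a minimal, strongly faithful action on an infinite
Hausdorff space with one element that has north-south dynamics.
-/

set_option autoImplicit false

namespace Pool.Agent.Helper77.PP

open Pool.Agent.Helper78.PP

universe u v

theorem hasFree_of_northSouth {Q : Type u} [Group Q] {M : Type v} [TopologicalSpace M] [T2Space M]
    [Infinite M] [MulAction Q M] (hcont : ∀ g : Q, Continuous fun x : M => g • x)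
    (hmin : ∀ x : M, Dense (MulAction.orbit Q x))
    (hfaith : ∀ D : Finset Q, ∃ y : M, ∀ d ∈ D, d ≠ 1 → d • y ≠ y)
    (g : Q) (a r : M) (har : a ≠ r)
    (hns : ∀ U V : Set M, IsOpen U → IsOpen V → a ∈ U → r ∈ V →
      ∃ n : ℕ, ∀ x ∉ V, g ^ n • x ∈ U) : HasFree Q := by
  classical
  intro D
  obtain ⟨y, hy⟩ := hfaith D
  -- an open neighbourhood `W` of `y` with `dW ∩ W = ∅`
  obtain ⟨W, hWo, hyW, hW⟩ : ∃ W : Set M, IsOpen W ∧ y ∈ W ∧
      ∀ d ∈ D, d ≠ 1 → ∀ x ∈ W, d • x ∉ W := by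
    have h1 : ∀ d : Q, ∃ P : Set M, IsOpen P ∧ y ∈ P ∧
        (d ∈ D → d ≠ 1 → ∀ x ∈ P, d • x ∉ P) := by
      intro d
      by_cases hd : d ∈ D ∧ d ≠ 1
      · obtain ⟨P, P', hP, hP', h3, h4, h5⟩ := t2_separation (hy d hd.1 hd.2).symm
        refine ⟨P ∩ (fun x => d • x) ⁻¹' P', hP.inter (hP'.preimage (hcont d)), ⟨h3, h4⟩, ?_⟩
        intro _ _ x hx hx'
        exact Set.disjoint_left.1 h5 hx'.1 hx.2
      · refine ⟨Set.univ, isOpen_univ, trivial, fun h2 h3 => absurd ⟨h2, h3⟩ hd⟩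
    choose P hPo hyP hP using h1
    refine ⟨⋂ d ∈ D, P d, isOpen_biInter_finset fun d _ => hPo d, ?_, ?_⟩
    · simp only [Set.mem_iInter]
      exact fun d _ => hyP d
    · intro d hd hd1 x hx hx'
      simp only [Set.mem_iInter] at hx hx'
      exact hP d hd hd1 x (hx d hd) (hx' d hd)
  -- `t` moves `r` away from `a` and `r`
  obtain ⟨t, hta, htr⟩ : ∃ t : Q, t • r ≠ a ∧ t • r ≠ r := by
    by_contra hcon
    push Not at hcon
    have hsub : MulAction.orbit Q r ⊆ {a, r} := by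
      rintro _ ⟨t, rfl⟩
      by_cases h : t • r = a
      · exact Or.inl h
      · exact Or.inr (hcon t h)
    have hcl : IsClosed ({a, r} : Set M) := (Set.toFinite _).isClosed
    have h2 : (Set.univ : Set M) ⊆ {a, r} := by
      rw [← (hmin r).closure_eq]
      exact closure_minimal hsub hcl
    exact Set.infinite_univ ((Set.toFinite ({a, r} : Set M)).subset h2)
  -- `k` moves `a` into `W`
  obtain ⟨_, ⟨k, rfl⟩, hk⟩ := (hmin a).exists_mem_open hWo ⟨y, hyW⟩
  obtain ⟨n, hn⟩ := hns ((fun x => k • x) ⁻¹' W) ({t⁻¹ • a, t⁻¹ • r}ᶜ)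
    (hWo.preimage (hcont k)) (Set.toFinite _).isClosed.isOpen_compl hk (by
      intro h
      rcases h with h | h
      · exact hta (by rw [h, smul_inv_smul])
      · have h' : r = t⁻¹ • r := h
        exact htr (by conv_lhs => rw [h', smul_inv_smul]))
  set h : Q := k * g ^ n * t⁻¹ with hh
  have ha : h • a ∈ W := by
    rw [hh, mul_smul, mul_smul]
    exact hn _ (by simp)
  have hr : h • r ∈ W := by
    rw [hh, mul_smul, mul_smul]
    exact hn _ (by simp)
  have har' : h • a ≠ h • r := fun e => har (MulAction.injective h e)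
  obtain ⟨x0, hx0⟩ : ∃ x0 : M, x0 ∉ ({h • a, h • r} : Set M) :=
    (Set.toFinite ({h • a, h • r} : Set M)).exists_notMem
  have hx0a : h • a ≠ x0 := fun e => hx0 (Or.inl e.symm)
  have hx0r : h • r ≠ x0 := fun e => hx0 (Or.inr e.symm)
  obtain ⟨U0, V0, hU0, hV0, haU, hrV, hUV⟩ := t2_separation har'
  have hc0 : IsOpen ({x0}ᶜ : Set M) := isOpen_compl_singleton
  let U : Set M := U0 ∩ W ∩ {x0}ᶜ
  let V : Set M := V0 ∩ W ∩ {x0}ᶜ
  have hUo : IsOpen U := (hU0.inter hWo).inter hc0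
  have hVo : IsOpen V := (hV0.inter hWo).inter hc0
  have haU' : h • a ∈ U := ⟨⟨haU, ha⟩, hx0a⟩
  have hrV' : h • r ∈ V := ⟨⟨hrV, hr⟩, hx0r⟩
  obtain ⟨N, hN⟩ := hns ((fun x => h • x) ⁻¹' U) ((fun x => h • x) ⁻¹' V)
    (hUo.preimage (hcont h)) (hVo.preimage (hcont h)) haU' hrV'
  have hsubW : U ∪ V ⊆ W := by
    rintro x (hx | hx)
    · exact hx.1.2
    · exact hx.1.2
  refine ⟨h * g ^ N * h⁻¹, freeFor_of_pingpong' (X := M) D _ U V ?_ ?_ ?_ ⟨_, haU'⟩ ⟨_, hrV'⟩
    ⟨x0, ?_⟩⟩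
  · exact hUV.mono (fun x hx => hx.1.1) (fun x hx => hx.1.1)
  · intro x hx
    rw [mul_smul, mul_smul]
    refine hN _ ?_
    intro hx'
    have h3 : h • (h⁻¹ • x) ∈ V := hx'
    rw [smul_inv_smul] at h3
    exact hx h3
  · intro d hd hd1 x hx hx'
    exact hW d hd hd1 x (hsubW hx) (hsubW hx')
  · rintro (hx | hx)
    · exact hx.2 rfl
    · exact hx.2 rfl

end Pool.Agent.Helper77.PP
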